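import Pool.Agent.R123.Shuf.Limit

/-!
# The growth rate of shuffle squares over large alphabets is `4 k - 2 - o(1)`

A word `w` is a shuffle square if it is an interleaving of two copies of one word `u`
(`Interleave u u w`); `S k n` is the set of shuffle squares of length `2 n` over `k` letters.
-/

set_option autoImplicit false

namespace Pool.Agent.Results.MP_e74ce2_co.GrowthRate

open Filter Topology Pool.Agent.R123.Shuf

/-- For every `k ≥ 1` the limit `L k` of `|S k n| ^ (1 / n)` exists, and `4 k - 2 - L k` tends to `0`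
as `k` tends to infinity. -/
theorem result : ∃ L : ℕ → ℝ,
    (∀ k : ℕ, 1 ≤ k →
      Tendsto (fun n : ℕ => ((S k n).ncard : ℝ) ^ (1 / (n : ℝ))) atTop (𝓝 (L k))) ∧
    Tendsto (fun k : ℕ => 4 * (k : ℝ) - 2 - L k) atTop (𝓝 0) :=
  ⟨L, fun _ hk => tendsto_L hk, tendsto_main⟩

end Pool.Agent.Results.MP_e74ce2_co.GrowthRate
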